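import Mathlib

set_option autoImplicit false

open Metric Set Complex

namespace Pool.Agent.R230

/-- Hadamard three circles theorem, from the three lines theorem. -/
theorem three_circles {G : ℂ → ℂ} {p : ℂ} {r1 r3 R A K t : ℝ} (h1 : 0 < r1) (h13 : r1 < r3)
    (h3R : r3 < R) (hG : DifferentiableOn ℂ G (ball p R))
    (hA : ∀ z, ‖z - p‖ = r1 → ‖G z‖ ≤ A) (hK : ∀ z, ‖z - p‖ = r3 → ‖G z‖ ≤ K)
    (ht0 : 0 ≤ t) (ht1 : t ≤ 1) {z : ℂ} (hz : ‖z - p‖ = r1 * (r3 / r1) ^ t) :
    ‖G z‖ ≤ A ^ (1 - t) * K ^ t := by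
  set L : ℝ := Real.log (r3 / r1) with hL
  have hr : 1 < r3 / r1 := (one_lt_div h1).2 h13
  have hL0 : 0 < L := Real.log_pos hr
  set F : ℂ → ℂ := fun s => G (p + r1 * exp (s * L)) with hF
  have hnorm : ∀ s : ℂ, ‖(r1 : ℂ) * exp (s * L)‖ = r1 * Real.exp (s.re * L) := by
    intro s
    rw [norm_mul, Complex.norm_real, Real.norm_of_nonneg h1.le, Complex.norm_exp]
    congr 2
    simp [Complex.mul_re]
  have hle : ∀ s : ℂ, s.re ≤ 1 → r1 * Real.exp (s.re * L) ≤ r3 := by
    intro s hs
    have : Real.exp (s.re * L) ≤ Real.exp L := Real.exp_le_exp.2 (by nlinarith)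
    rw [hL, Real.exp_log (by linarith)] at this
    calc r1 * Real.exp (s.re * L) ≤ r1 * (r3 / r1) := mul_le_mul_of_nonneg_left this h1.le
      _ = r3 := by field_simp
  have hmaps : ∀ s : ℂ, s.re ≤ 1 → p + r1 * exp (s * L) ∈ closedBall p r3 := by
    intro s hs
    rw [mem_closedBall_iff_norm, add_sub_cancel_left, hnorm]
    exact hle s hs
  have hFd : ∀ s : ℂ, s.re ≤ 1 → DifferentiableAt ℂ F s := by
    intro s hs
    have h2 : p + r1 * exp (s * L) ∈ ball p R := (closedBall_subset_ball h3R) (hmaps s hs)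
    have h4 : DifferentiableAt ℂ G (p + r1 * exp (s * L)) :=
      hG.differentiableAt (isOpen_ball.mem_nhds h2)
    exact DifferentiableAt.comp s h4 (by fun_prop)
  have hcont : ContinuousOn G (closedBall p r3) :=
    hG.continuousOn.mono (closedBall_subset_ball h3R)
  obtain ⟨C, hC⟩ := (isCompact_closedBall p r3).exists_bound_of_continuousOn hcont
  -- the point of the strip
  set s : ℂ := (t : ℂ) + ((arg (z - p) / L : ℝ) : ℂ) * I with hs
  have hsre : s.re = t := by simp [hs]
  have hsz : p + r1 * exp (s * L) = z := by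
    have e1 : s * L = ((t * L : ℝ) : ℂ) + (arg (z - p) : ℂ) * I := by
      rw [hs]
      push_cast
      have : (L : ℂ) ≠ 0 := by exact_mod_cast hL0.ne'
      field_simp
    have e2 : (r1 : ℂ) * exp (s * L) = z - p := by
      rw [e1, Complex.exp_add, ← mul_assoc, ← Complex.ofReal_exp, ← Complex.ofReal_mul]
      have e3 : r1 * Real.exp (t * L) = ‖z - p‖ := by
        rw [hz, Real.rpow_def_of_pos (by linarith), mul_comm t L]
      rw [e3]
      exact Complex.norm_mul_exp_arg_mul_I (z - p)
    rw [e2]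
    ring
  have key := Complex.HadamardThreeLines.norm_le_interp_of_mem_verticalClosedStrip₀₁' F
    (z := s) (a := A) (b := K) ?_ ?_ ?_ ?_ ?_
  · rw [hsre] at key
    have : F s = G z := by rw [hF]; simp only [hsz]
    rw [this] at key
    exact key
  · exact ⟨by rw [hsre]; exact ht0, by rw [hsre]; exact ht1⟩
  · constructor
    · intro w hw
      exact (hFd w hw.2.le).differentiableWithinAt
    · intro w hw
      have : w ∈ Complex.re ⁻¹' Iic 1 := by
        have h5 : closure (Complex.HadamardThreeLines.verticalStrip 0 1) ⊆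
            Complex.re ⁻¹' Iic 1 := by
          apply closure_minimal
          · intro x hx; exact hx.2.le
          · exact isClosed_Iic.preimage Complex.continuous_re
        exact h5 hw
      exact (hFd w this).continuousAt.continuousWithinAt
  · refine ⟨C, ?_⟩
    rintro _ ⟨w, hw, rfl⟩
    exact hC _ (hmaps w hw.2)
  · intro w hw
    have hw' : w.re = 0 := hw
    apply hA
    rw [add_sub_cancel_left, hnorm, hw', zero_mul, Real.exp_zero, mul_one]
  · intro w hw
    have hw' : w.re = 1 := hw
    apply hK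
    rw [add_sub_cancel_left, hnorm, hw', one_mul, hL, Real.exp_log (by linarith)]
    field_simp

end Pool.Agent.R230
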