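import Mathlib
import Pool.Agent.R230.Circles

set_option autoImplicit false

open Metric Set Filter Topology

namespace Pool.Agent.R230.NB

/-- the growth sequence `2, 8, 512, …` -/
def u (k : ℕ) : ℕ := 2 ^ (3 ^ k)

theorem u_succ (k : ℕ) : u (k + 1) = u k ^ 3 := by
  unfold u
  rw [← pow_mul, pow_succ]

theorem u_ge (k : ℕ) : k + 1 ≤ u k := by
  unfold u
  have h1 : k < 3 ^ k := Nat.lt_pow_self (by norm_num)
  have h2 : 3 ^ k < 2 ^ (3 ^ k) := Nat.lt_pow_self (by norm_num)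
  omega

theorem u_two (k : ℕ) : 2 ≤ u k := by
  unfold u
  calc 2 = 2 ^ 1 := by norm_num
    _ ≤ 2 ^ (3 ^ k) := Nat.pow_le_pow_right (by norm_num) (Nat.one_le_pow _ _ (by norm_num))

theorem u_strictMono : StrictMono u := by
  apply strictMono_nat_of_lt_succ
  intro k
  rw [u_succ]
  have := u_two k
  calc u k = u k ^ 1 := (pow_one _).symm
    _ < u k ^ 3 := Nat.pow_lt_pow_right (by omega) (by norm_num)

/-- the coefficients -/
noncomputable def cf (k : ℕ) : ℝ := Real.exp (-(u k : ℝ))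

theorem cf_pos (k : ℕ) : 0 < cf k := Real.exp_pos _

theorem cf_summable (p : ℕ) : Summable (fun k => cf k * ((u k : ℝ) ^ 2) ^ p) := by
  have h1 : Summable (fun k : ℕ => ((2 * p + 2).factorial : ℝ) * (1 / ((k : ℝ) + 1) ^ 2)) := by
    apply Summable.mul_left
    have := (summable_nat_add_iff 1).2 (Real.summable_one_div_nat_pow.2 (one_lt_two))
    simpa using this
  refine Summable.of_nonneg_of_le (fun k => by have := cf_pos k; positivity) (fun k => ?_) h1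
  have hx : (k : ℝ) + 1 ≤ u k := by exact_mod_cast u_ge k
  have hx0 : (0 : ℝ) < u k := lt_of_lt_of_le (by positivity) hx
  have h2 := Real.pow_div_factorial_le_exp (u k : ℝ) hx0.le (2 * p + 2)
  have hf : (0 : ℝ) < (2 * p + 2).factorial := by positivity
  rw [div_le_iff₀ hf] at h2
  unfold cf
  rw [Real.exp_neg, ← div_eq_inv_mul, div_le_iff₀ (Real.exp_pos _)]
  have h3 : ((u k : ℝ) ^ 2) ^ p * ((k : ℝ) + 1) ^ 2 ≤ (u k : ℝ) ^ (2 * p + 2) := by
    rw [pow_add, pow_mul]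
    gcongr
  have h4 : ((u k : ℝ) ^ 2) ^ p ≤ (Real.exp (u k) * (2 * p + 2).factorial) / ((k : ℝ) + 1) ^ 2 := by
    rw [le_div_iff₀ (by positivity)]
    exact h3.trans h2
  calc ((u k : ℝ) ^ 2) ^ p ≤ _ := h4
    _ = _ := by field_simp

theorem cf_summable0 : Summable cf := by
  have := cf_summable 0
  simpa using this

/-- the tail of the series of the coefficients -/
theorem cf_tail (k : ℕ) : ∑' j, cf (j + (k + 1)) ≤ 2 * Real.exp (-(u (k + 1) : ℝ)) := by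
  have hs : Summable (fun j => Real.exp (-(u (k + 1) : ℝ)) * (1 / 2 : ℝ) ^ j) :=
    (summable_geometric_two).mul_left _
  have hle : ∀ j, cf (j + (k + 1)) ≤ Real.exp (-(u (k + 1) : ℝ)) * (1 / 2 : ℝ) ^ j := by
    intro j
    have h1 : u (k + 1) + j ≤ u (j + (k + 1)) := by
      induction j with
      | zero => simp
      | succ j ih =>
        have := u_strictMono (show j + (k + 1) < j + 1 + (k + 1) by omega)
        omega
    have h1' : (u (k + 1) : ℝ) + j ≤ u (j + (k + 1)) := by exact_mod_cast h1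
    have h2 : (1 / 2 : ℝ) ^ j ≥ Real.exp (-(j : ℝ)) := by
      have h3 : Real.exp (-1) ≤ 1 / 2 := by
        rw [Real.exp_neg, inv_eq_one_div]
        apply one_div_le_one_div_of_le two_pos
        have := Real.add_one_le_exp (1 : ℝ)
        linarith
      calc Real.exp (-(j : ℝ)) = (Real.exp (-1)) ^ j := by
            rw [← Real.exp_nat_mul]; congr 1; ring
        _ ≤ (1 / 2 : ℝ) ^ j := pow_le_pow_left₀ (Real.exp_pos _).le h3 j
    calc cf (j + (k + 1)) ≤ Real.exp (-(u (k + 1) : ℝ) + -(j : ℝ)) :=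
          Real.exp_le_exp.2 (by linarith)
      _ = Real.exp (-(u (k + 1) : ℝ)) * Real.exp (-(j : ℝ)) := Real.exp_add _ _
      _ ≤ _ := mul_le_mul_of_nonneg_left h2 (Real.exp_pos _).le
  calc ∑' j, cf (j + (k + 1)) ≤ ∑' j, Real.exp (-(u (k + 1) : ℝ)) * (1 / 2 : ℝ) ^ j :=
        Summable.tsum_le_tsum hle ((summable_nat_add_iff (k + 1)).2 cf_summable0) hs
    _ = 2 * Real.exp (-(u (k + 1) : ℝ)) := by
        rw [tsum_mul_left, tsum_geometric_two]; ring


/-- The functional `z ↦ ⟨z, ξ⟩`. -/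
noncomputable def ell {n : ℕ} (ξ : EuclideanSpace ℂ (Fin n)) : EuclideanSpace ℂ (Fin n) →L[ℂ] ℂ :=
  innerSL ℂ ξ

theorem ell_apply {n : ℕ} (ξ z : EuclideanSpace ℂ (Fin n)) : ell ξ z = inner ℂ ξ z := rfl

theorem ell_norm {n : ℕ} {ξ : EuclideanSpace ℂ (Fin n)} (h : ‖ξ‖ = 1) : ‖ell ξ‖ = 1 := by
  unfold ell
  rw [innerSL_apply_norm, h]

/-- the terms of the series -/
noncomputable def T {n : ℕ} (ξ : ℕ → EuclideanSpace ℂ (Fin n)) (k : ℕ)
    (z : EuclideanSpace ℂ (Fin n)) : ℂ := (cf k : ℂ) * (ell (ξ k) z) ^ (u k ^ 2)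

/-- the function -/
noncomputable def ff {n : ℕ} (ξ : ℕ → EuclideanSpace ℂ (Fin n)) (z : EuclideanSpace ℂ (Fin n)) : ℂ :=
  ∑' k, T ξ k z

theorem T_contDiff {n : ℕ} (ξ : ℕ → EuclideanSpace ℂ (Fin n)) (k : ℕ) :
    ContDiff ℂ ((⊤ : ℕ∞) : WithTop ℕ∞) (T ξ k) := by
  unfold T
  exact contDiff_const.mul ((ell (ξ k)).contDiff.pow _)

theorem T_iter_le {n : ℕ} {ξ : ℕ → EuclideanSpace ℂ (Fin n)} (hξ : ∀ k, ‖ξ k‖ = 1) (k p : ℕ)
    {z : EuclideanSpace ℂ (Fin n)} (hz : ‖z‖ ≤ 1) :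
    ‖iteratedFDeriv ℂ p (T ξ k) z‖ ≤ cf k * ((u k : ℝ) ^ 2) ^ p := by
  have e : T ξ k = (fun w : ℂ => (cf k : ℂ) * w ^ (u k ^ 2)) ∘ (ell (ξ k)) := rfl
  have hc : ContDiff ℂ ((⊤ : ℕ∞) : WithTop ℕ∞) (fun w : ℂ => (cf k : ℂ) * w ^ (u k ^ 2)) := by
    fun_prop
  rw [e, ContinuousLinearMap.iteratedFDeriv_comp_right (ell (ξ k)) hc z (i := p) (mod_cast le_top)]
  refine (ContinuousMultilinearMap.norm_compContinuousLinearMap_le _ _).trans ?_
  rw [norm_iteratedFDeriv_eq_norm_iteratedDeriv]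
  simp only [ell_norm (hξ k), Finset.prod_const_one, mul_one]
  have e2 : iteratedDeriv p (fun w : ℂ => (cf k : ℂ) * w ^ (u k ^ 2)) (ell (ξ k) z) =
      (cf k : ℂ) * iteratedDeriv p (fun w : ℂ => w ^ (u k ^ 2)) (ell (ξ k) z) := by
    rw [iteratedDeriv_const_mul_field]
  rw [e2, iteratedDeriv_pow, norm_mul, norm_mul, norm_pow, Complex.norm_real,
    Real.norm_of_nonneg (cf_pos k).le]
  apply mul_le_mul_of_nonneg_left _ (cf_pos k).le
  have h1 : ‖ell (ξ k) z‖ ≤ 1 := by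
    calc ‖ell (ξ k) z‖ ≤ ‖ell (ξ k)‖ * ‖z‖ := (ell (ξ k)).le_opNorm z
      _ ≤ 1 := by rw [ell_norm (hξ k), one_mul]; exact hz
  have h2 : ‖(((u k ^ 2).descFactorial p : ℕ) : ℂ)‖ ≤ ((u k : ℝ) ^ 2) ^ p := by
    rw [Complex.norm_natCast]
    have := Nat.descFactorial_le_pow (u k ^ 2) p
    exact_mod_cast this
  calc ‖(((u k ^ 2).descFactorial p : ℕ) : ℂ)‖ * ‖ell (ξ k) z‖ ^ (u k ^ 2 - p)
      ≤ ((u k : ℝ) ^ 2) ^ p * 1 :=
        mul_le_mul h2 (pow_le_one₀ (norm_nonneg _) h1) (by positivity) (by positivity)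
    _ = _ := mul_one _

theorem T_le {n : ℕ} {ξ : ℕ → EuclideanSpace ℂ (Fin n)} (hξ : ∀ k, ‖ξ k‖ = 1) (k : ℕ)
    (z : EuclideanSpace ℂ (Fin n)) : ‖T ξ k z‖ ≤ cf k * ‖z‖ ^ (u k ^ 2) := by
  unfold T
  rw [norm_mul, norm_pow, Complex.norm_real, Real.norm_of_nonneg (cf_pos k).le]
  apply mul_le_mul_of_nonneg_left _ (cf_pos k).le
  apply pow_le_pow_left₀ (norm_nonneg _)
  calc ‖ell (ξ k) z‖ ≤ ‖ell (ξ k)‖ * ‖z‖ := (ell (ξ k)).le_opNorm z
    _ = ‖z‖ := by rw [ell_norm (hξ k), one_mul]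

theorem T_le' {n : ℕ} {ξ : ℕ → EuclideanSpace ℂ (Fin n)} (hξ : ∀ k, ‖ξ k‖ = 1) (k : ℕ)
    {z : EuclideanSpace ℂ (Fin n)} (hz : ‖z‖ ≤ 1) : ‖T ξ k z‖ ≤ cf k :=
  (T_le hξ k z).trans (by
    have : ‖z‖ ^ (u k ^ 2) ≤ 1 := pow_le_one₀ (norm_nonneg _) hz
    have := cf_pos k
    nlinarith)

theorem T_summable {n : ℕ} {ξ : ℕ → EuclideanSpace ℂ (Fin n)} (hξ : ∀ k, ‖ξ k‖ = 1)
    {z : EuclideanSpace ℂ (Fin n)} (hz : ‖z‖ ≤ 1) : Summable (fun k => T ξ k z) :=
  Summable.of_norm_bounded cf_summable0 (fun k => T_le' hξ k hz)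

theorem ff_continuousOn {n : ℕ} {ξ : ℕ → EuclideanSpace ℂ (Fin n)} (hξ : ∀ k, ‖ξ k‖ = 1) :
    ContinuousOn (ff ξ) (closedBall 0 1) := by
  unfold ff
  apply continuousOn_tsum (fun k => (T_contDiff ξ k).continuous.continuousOn) cf_summable0
  intro k z hz
  exact T_le' hξ k (by simpa using hz)

/-- the iterated derivatives inside the ball -/
theorem ff_iter {n : ℕ} {ξ : ℕ → EuclideanSpace ℂ (Fin n)} (hξ : ∀ k, ‖ξ k‖ = 1) (p : ℕ) :
    ∀ z ∈ ball (0 : EuclideanSpace ℂ (Fin n)) 1,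
      iteratedFDeriv ℂ p (ff ξ) z = ∑' k, iteratedFDeriv ℂ p (T ξ k) z := by
  induction p with
  | zero =>
    intro z hz
    simp_rw [iteratedFDeriv_zero_eq_comp]
    exact (continuousMultilinearCurryFin0 ℂ (EuclideanSpace ℂ (Fin n)) ℂ).symm.toContinuousLinearEquiv.map_tsum
  | succ p ih =>
    intro z hz
    have hev : iteratedFDeriv ℂ p (ff ξ) =ᶠ[𝓝 z] fun x => ∑' k, iteratedFDeriv ℂ p (T ξ k) x := by
      filter_upwards [isOpen_ball.mem_nhds hz] with x hx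
      exact ih x hx
    have hd : HasFDerivAt (fun x => ∑' k, iteratedFDeriv ℂ p (T ξ k) x)
        (∑' k, fderiv ℂ (iteratedFDeriv ℂ p (T ξ k)) z) z := by
      refine hasFDerivAt_tsum_of_isPreconnected (cf_summable (p + 1)) isOpen_ball
        (convex_ball (0 : EuclideanSpace ℂ (Fin n)) 1).isPreconnected ?_ ?_ (mem_ball_self one_pos) ?_ hz
      · intro k x _
        exact (((T_contDiff ξ k).differentiable_iteratedFDeriv
          (by exact_mod_cast WithTop.coe_lt_top p)) x).hasFDerivAt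
      · intro k x hx
        rw [fderiv_iteratedFDeriv, Function.comp_apply, LinearIsometryEquiv.norm_map]
        exact T_iter_le hξ k (p + 1) (by simpa using (mem_ball_zero_iff.1 hx).le)
      · exact Summable.of_norm_bounded (cf_summable p) (fun k => T_iter_le hξ k p (by simp))
    rw [iteratedFDeriv_succ_eq_comp_left, Function.comp_apply, hev.fderiv_eq, hd.fderiv]
    simp_rw [iteratedFDeriv_succ_eq_comp_left]
    exact (continuousMultilinearCurryLeftEquiv ℂ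
        (fun _ : Fin (p + 1) => EuclideanSpace ℂ (Fin n)) ℂ).symm.toContinuousLinearEquiv.map_tsum

theorem ff_differentiableOn {n : ℕ} {ξ : ℕ → EuclideanSpace ℂ (Fin n)} (hξ : ∀ k, ‖ξ k‖ = 1) :
    DifferentiableOn ℂ (ff ξ) (ball 0 1) := by
  intro z hz
  have hd : HasFDerivAt (fun x => ∑' k, T ξ k x) (∑' k, fderiv ℂ (T ξ k) z) z := by
    refine hasFDerivAt_tsum_of_isPreconnected (cf_summable 1) isOpen_ball
      (convex_ball (0 : EuclideanSpace ℂ (Fin n)) 1).isPreconnected ?_ ?_ (mem_ball_self one_pos) ?_ hz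
    · intro k x _
      exact (((T_contDiff ξ k).differentiable (by simp)) x).hasFDerivAt
    · intro k x hx
      have h1 := T_iter_le hξ k 1 (z := x) (by simpa using (mem_ball_zero_iff.1 hx).le)
      rwa [norm_iteratedFDeriv_one] at h1
    · exact T_summable hξ (by simp)
  exact hd.differentiableAt.differentiableWithinAt

theorem ff_extends {n : ℕ} {ξ : ℕ → EuclideanSpace ℂ (Fin n)} (hξ : ∀ k, ‖ξ k‖ = 1) (p : ℕ) :
    ContinuousOn (fun z => ∑' k, iteratedFDeriv ℂ p (T ξ k) z)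
      (closedBall (0 : EuclideanSpace ℂ (Fin n)) 1) := by
  apply continuousOn_tsum (fun k => ?_) (cf_summable p)
  · intro k z hz
    exact T_iter_le hξ k p (by simpa using hz)
  · exact ((T_contDiff ξ k).continuous_iteratedFDeriv (mod_cast le_top)).continuousOn

end Pool.Agent.R230.NB
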