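import Mathlib
import Pool.Agent.R230.NBSeries

set_option autoImplicit false

open Metric Set Filter Topology

namespace Pool.Agent.R230.NB

theorem geo {n : ℕ} {a b : EuclideanSpace ℂ (Fin n)} (h : ∀ w : ℂ, ‖w‖ = 1 → ‖a + w • b‖ = 1) :
    ‖a‖ ^ 2 + ‖b‖ ^ 2 = 1 ∧ (inner ℂ a b : ℂ) = 0 := by
  have key : ∀ w : ℂ, ‖w‖ = 1 →
      ‖a‖ ^ 2 + 2 * (w * inner ℂ a b).re + ‖b‖ ^ 2 = 1 := by
    intro w hw
    have h1 := h w hw
    have h2 := @norm_add_sq ℂ _ _ _ _ a (w • b)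
    rw [h1, inner_smul_right, norm_smul, hw, one_mul, one_pow] at h2
    simp only [RCLike.re_to_complex] at h2
    linarith
  have k1 := key 1 (by simp)
  have k2 := key (-1) (by simp)
  have k3 := key Complex.I (by simp)
  rw [one_mul] at k1
  rw [neg_one_mul, Complex.neg_re] at k2
  rw [Complex.I_mul_re] at k3
  refine ⟨by linarith, ?_⟩
  apply Complex.ext
  · simp only [Complex.zero_re]; linarith
  · simp only [Complex.zero_im]; linarith

theorem norm_aff {n : ℕ} {a b : EuclideanSpace ℂ (Fin n)} (h0 : (inner ℂ a b : ℂ) = 0) (w : ℂ) :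
    ‖a + w • b‖ ^ 2 = ‖a‖ ^ 2 + ‖w‖ ^ 2 * ‖b‖ ^ 2 := by
  have h2 := @norm_add_sq ℂ _ _ _ _ a (w • b)
  rw [inner_smul_right, norm_smul, h0, mul_zero, map_zero] at h2
  rw [h2]; ring

theorem asym {t C η M S : ℝ} (_ht0 : 0 ≤ t) (ht1 : t < 1) (hC : 0 < C) (hη : 0 < η) (hM : 0 ≤ M)
    (hS : 0 ≤ S) : ∀ᶠ x : ℝ in atTop,
      (2 * Real.exp (-(x ^ 3))) ^ (1 - t) * (C * 2 ^ (x ^ 2)) ^ t + M + S * 2 ^ x <
        Real.exp (-x) * (1 + η) ^ (x ^ 2) := by
  have hl2 : 0 < Real.log 2 := Real.log_pos one_lt_two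
  set L := Real.log (1 + η) with hL
  have hL0 : 0 < L := Real.log_pos (by linarith)
  set c0 := (1 - t) * Real.log 2 + t * Real.log C with hc0
  set S' := 1 + M + S with hS'
  have hS'1 : 1 ≤ S' := by linarith
  have hlS : 0 ≤ Real.log S' := Real.log_nonneg hS'1
  filter_upwards [eventually_ge_atTop ((t * Real.log 2 + |c0|) / (1 - t)), eventually_ge_atTop 1,
    eventually_ge_atTop ((2 + Real.log 2 + Real.log S') / L)] with x h1 h2 h3
  have h1' : t * Real.log 2 + |c0| ≤ (1 - t) * x := by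
    rw [div_le_iff₀ (by linarith)] at h1; linarith
  have h3' : 2 + Real.log 2 + Real.log S' ≤ L * x := by
    rw [div_le_iff₀ hL0] at h3; linarith
  have e1 : (2 * Real.exp (-(x ^ 3))) ^ (1 - t) * (C * 2 ^ (x ^ 2)) ^ t ≤ 1 := by
    have p1 : 0 < 2 * Real.exp (-(x ^ 3)) := by positivity
    have p2 : 0 < C * 2 ^ (x ^ 2) := by positivity
    rw [Real.rpow_def_of_pos p1, Real.rpow_def_of_pos p2, ← Real.exp_add, Real.exp_le_one_iff]
    rw [Real.log_mul (by norm_num) (Real.exp_pos _).ne', Real.log_exp,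
      Real.log_mul hC.ne' (by positivity), Real.log_rpow two_pos]
    have h4 : |c0| ≤ x ^ 2 * |c0| := by
      have : 0 ≤ |c0| := abs_nonneg _
      have hx2 : 1 ≤ x ^ 2 := by nlinarith
      nlinarith
    have h5 : x ^ 2 * (t * Real.log 2 + |c0|) ≤ x ^ 2 * ((1 - t) * x) :=
      mul_le_mul_of_nonneg_left h1' (by positivity)
    have h6 := le_abs_self c0
    nlinarith
  have e2 : M + S * 2 ^ x + 1 ≤ S' * 2 ^ x := by
    have : (1 : ℝ) ≤ 2 ^ x := Real.one_le_rpow one_le_two (by linarith)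
    rw [hS']; nlinarith
  have e3 : S' * 2 ^ x < Real.exp (-x) * (1 + η) ^ (x ^ 2) := by
    have p3 : (0 : ℝ) < 1 + η := by linarith
    rw [Real.rpow_def_of_pos two_pos, Real.rpow_def_of_pos p3, ← Real.exp_add,
      ← Real.exp_log (show 0 < S' by linarith), ← Real.exp_add]
    apply Real.exp_lt_exp.2
    have h7 : x * (2 + Real.log 2 + Real.log S') ≤ x * (L * x) :=
      mul_le_mul_of_nonneg_left h3' (by linarith)
    have h8 : Real.log S' ≤ x * Real.log S' := by nlinarith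
    rw [← hL]
    nlinarith
  linarith

/-- The dense sequences that are used. -/
def Recurrent {n : ℕ} (ξ : ℕ → EuclideanSpace ℂ (Fin n)) : Prop :=
  ∀ ζ : EuclideanSpace ℂ (Fin n), ‖ζ‖ = 1 → ∀ ε : ℝ, 0 < ε → ∀ N : ℕ, ∃ k ≥ N, ‖ξ k - ζ‖ < ε

theorem exists_recurrent {n : ℕ} (hn : 1 ≤ n) :
    ∃ ξ : ℕ → EuclideanSpace ℂ (Fin n), (∀ k, ‖ξ k‖ = 1) ∧ Recurrent ξ := by
  have : Nonempty (sphere (0 : EuclideanSpace ℂ (Fin n)) 1) := by
    refine ⟨⟨EuclideanSpace.single ⟨0, hn⟩ 1, ?_⟩⟩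
    simp
  set d : ℕ → sphere (0 : EuclideanSpace ℂ (Fin n)) 1 := TopologicalSpace.denseSeq _ with hd
  refine ⟨fun k => (d (Nat.unpair k).1 : EuclideanSpace ℂ (Fin n)), ?_, ?_⟩
  · intro k
    simpa using (d (Nat.unpair k).1).2
  · intro ζ hζ ε hε N
    have hdense := TopologicalSpace.denseRange_denseSeq (sphere (0 : EuclideanSpace ℂ (Fin n)) 1)
    obtain ⟨i, hi⟩ := Metric.denseRange_iff.1 hdense ⟨ζ, by simpa using hζ⟩ ε hε
    refine ⟨Nat.pair i N, Nat.right_le_pair i N, ?_⟩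
    simp only [Nat.unpair_pair]
    rw [dist_comm, Subtype.dist_eq, dist_eq_norm] at hi
    exact hi

theorem no_ext {n : ℕ} {ξ : ℕ → EuclideanSpace ℂ (Fin n)} (hξ : ∀ k, ‖ξ k‖ = 1)
    (hrec : Recurrent ξ) {a b : EuclideanSpace ℂ (Fin n)} (hb : b ≠ 0)
    (hab : ∀ w : ℂ, ‖w‖ = 1 → ‖a + w • b‖ = 1) {τ : ℂ} (hτ : ‖τ‖ = 1) {c0 : ℂ} {ρ : ℝ} {h : ℂ → ℂ}
    (hτc : τ ∈ ball c0 ρ) (hd : DifferentiableOn ℂ h (ball c0 ρ))
    (heq : ∀ w ∈ ball c0 ρ ∩ ball 0 1, h w = ff ξ (a + w • b)) : False := by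
  obtain ⟨hsum, hinner⟩ := geo hab
  have hb0 : 0 < ‖b‖ := norm_pos_iff.2 hb
  have haff := norm_aff (a := a) (b := b) hinner
  -- the disc around `τ`
  obtain ⟨δ, hδ, hδs⟩ : ∃ δ > 0, closedBall τ δ ⊆ ball c0 ρ :=
    nhds_basis_closedBall.mem_iff.1 (isOpen_ball.mem_nhds hτc)
  obtain ⟨M, hM⟩ := (isCompact_closedBall τ δ).exists_bound_of_continuousOn
    (hd.continuousOn.mono hδs)
  have hM0 : 0 ≤ M := (norm_nonneg _).trans (hM τ (mem_closedBall_self hδ.le))
  set κ : ℝ := min (1 / 4) (δ ^ 2 / 8) with hκ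
  have hκ0 : 0 < κ := by rw [hκ]; positivity
  have hκ1 : κ ≤ 1 / 4 := min_le_left _ _
  have hκ2 : κ ≤ δ ^ 2 / 8 := min_le_right _ _
  set D : Set ℂ := ball (τ / 2) (1 / 2 + κ) with hD
  have hτ2 : ‖τ / 2‖ = 1 / 2 := by rw [norm_div, hτ]; norm_num
  have hDout : ∀ w ∈ D, 1 ≤ ‖w‖ → w ∈ ball τ δ := by
    intro w hw h1
    rw [hD, mem_ball_iff_norm] at hw
    rw [mem_ball_iff_norm]
    have h2 := parallelogram_law_with_norm ℝ (w - τ / 2) (τ / 2)
    rw [sub_add_cancel, hτ2] at h2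
    have h3 : w - τ / 2 - τ / 2 = w - τ := by ring
    rw [h3] at h2
    have h4 : ‖w - τ / 2‖ ^ 2 < (1 / 2 + κ) ^ 2 := pow_lt_pow_left₀ hw (norm_nonneg _) two_ne_zero
    have h5 : ‖w - τ‖ ^ 2 < δ ^ 2 := by nlinarith
    exact lt_of_pow_lt_pow_left₀ 2 hδ.le h5
  have hDn : ∀ w ∈ D, ‖w‖ ≤ 2 := by
    intro w hw
    rw [hD, mem_ball_iff_norm] at hw
    have := norm_le_norm_add_norm_sub' w (τ / 2)
    rw [hτ2] at this
    linarith
  have hin : ∀ w : ℂ, ‖w‖ < 1 → a + w • b ∈ ball (0 : EuclideanSpace ℂ (Fin n)) 1 := by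
    intro w hw
    rw [mem_ball_zero_iff]
    have h1 := haff w
    have h2 : ‖w‖ ^ 2 < 1 := by
      have := pow_lt_pow_left₀ hw (norm_nonneg _) two_ne_zero
      simpa using this
    have h3 : ‖a + w • b‖ ^ 2 < 1 ^ 2 := by
      have : 0 < ‖b‖ ^ 2 := by positivity
      nlinarith
    exact lt_of_pow_lt_pow_left₀ 2 zero_le_one h3
  have hout : ∀ w : ℂ, ‖w‖ ≤ 2 → ‖a + w • b‖ ≤ 2 := by
    intro w hw
    have h1 := haff w
    have h3 : ‖a + w • b‖ ^ 2 ≤ 2 ^ 2 := by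
      have h4 : ‖w‖ ^ 2 ≤ 2 ^ 2 := pow_le_pow_left₀ (norm_nonneg _) hw 2
      have h5 : 0 ≤ ‖a‖ ^ 2 := by positivity
      have h6 : 0 ≤ ‖b‖ ^ 2 := by positivity
      nlinarith
    exact le_of_sq_le_sq h3 (by norm_num)
  -- the glued function
  classical
  set g : ℂ → ℂ := fun w => if ‖w‖ < 1 then ff ξ (a + w • b) else h w with hg
  have hg1 : ∀ w, ‖w‖ < 1 → g w = ff ξ (a + w • b) := fun w hw => if_pos hw
  have hg2 : ∀ w ∈ ball τ δ, g w = h w := by
    intro w hw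
    by_cases h1 : ‖w‖ < 1
    · rw [hg1 w h1]
      exact (heq w ⟨hδs (ball_subset_closedBall hw), by simpa using h1⟩).symm
    · exact if_neg h1
  have hgd : DifferentiableOn ℂ g D := by
    intro w hw
    apply DifferentiableAt.differentiableWithinAt
    by_cases h1 : ‖w‖ < 1
    · have hev : g =ᶠ[𝓝 w] fun w => ff ξ (a + w • b) := by
        filter_upwards [isOpen_ball.mem_nhds (show w ∈ ball (0 : ℂ) 1 by simpa using h1)] with x hx
        exact hg1 x (by simpa using hx)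
      refine DifferentiableAt.congr_of_eventuallyEq ?_ hev
      have h2 : DifferentiableAt ℂ (ff ξ) (a + w • b) :=
        (ff_differentiableOn hξ).differentiableAt (isOpen_ball.mem_nhds (hin w h1))
      exact DifferentiableAt.comp (f := fun w : ℂ => a + w • b) w h2 (by fun_prop)
    · have hw' := hDout w hw (not_lt.1 h1)
      have hev : g =ᶠ[𝓝 w] h := by
        filter_upwards [isOpen_ball.mem_nhds hw'] with x hx
        exact hg2 x hx
      refine DifferentiableAt.congr_of_eventuallyEq ?_ hev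
      exact hd.differentiableAt (isOpen_ball.mem_nhds (hδs (ball_subset_closedBall hw')))
  set S : ℝ := ∑' k, cf k with hS
  have hS0 : 0 < S := cf_summable0.tsum_pos (fun k => (cf_pos k).le) 0 (cf_pos 0)
  have hgb : ∀ w ∈ D, ‖g w‖ ≤ M + S := by
    intro w hw
    by_cases h1 : ‖w‖ < 1
    · rw [hg1 w h1]
      have h2 : ‖ff ξ (a + w • b)‖ ≤ S := by
        unfold ff
        refine tsum_of_norm_bounded cf_summable0.hasSum (fun k => T_le' hξ k ?_)
        exact (mem_ball_zero_iff.1 (hin w h1)).le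
      linarith
    · have hw' := hDout w hw (not_lt.1 h1)
      rw [hg2 w hw']
      have := hM w (ball_subset_closedBall hw')
      linarith
  -- the remainders
  set G : ℕ → ℂ → ℂ := fun k w => g w - ∑ j ∈ Finset.range (k + 1), T ξ j (a + w • b) with hG
  have hTd : ∀ j, Differentiable ℂ (fun w : ℂ => T ξ j (a + w • b)) := by
    intro j w
    have h2 : DifferentiableAt ℂ (T ξ j) (a + w • b) :=
      ((T_contDiff ξ j).differentiable (by simp)) _
    exact DifferentiableAt.comp (f := fun w : ℂ => a + w • b) w h2 (by fun_prop)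
  have hGd : ∀ k, DifferentiableOn ℂ (G k) D := by
    intro k
    apply hgd.sub
    apply DifferentiableOn.fun_sum
    intro j _
    exact (hTd j).differentiableOn
  have hGin : ∀ k w, ‖w‖ < 1 → ‖G k w‖ ≤ 2 * Real.exp (-(u (k + 1) : ℝ)) := by
    intro k w hw
    have hs := T_summable hξ (mem_ball_zero_iff.1 (hin w hw)).le
    have h1 : G k w = ∑' j, T ξ (j + (k + 1)) (a + w • b) := by
      simp only [hG]
      rw [hg1 w hw]
      unfold ff
      rw [← hs.sum_add_tsum_nat_add (k + 1)]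
      ring
    rw [h1]
    refine (tsum_of_norm_bounded ((summable_nat_add_iff (k + 1)).2 cf_summable0).hasSum
      (fun j => T_le' hξ (j + (k + 1)) (mem_ball_zero_iff.1 (hin w hw)).le)).trans (cf_tail k)
  have hTsum : ∀ (k : ℕ) (e : ℝ) (w : ℂ), ‖w‖ ≤ 2 → (∀ j < k, ((u j ^ 2 : ℕ) : ℝ) ≤ e) →
      ‖∑ j ∈ Finset.range k, T ξ j (a + w • b)‖ ≤ S * 2 ^ e := by
    intro k e w hw he
    calc ‖∑ j ∈ Finset.range k, T ξ j (a + w • b)‖
        ≤ ∑ j ∈ Finset.range k, cf j * 2 ^ e := by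
          apply norm_sum_le_of_le
          intro j hj
          refine (T_le hξ j _).trans ?_
          apply mul_le_mul_of_nonneg_left _ (cf_pos j).le
          calc ‖a + w • b‖ ^ (u j ^ 2) ≤ (2 : ℝ) ^ (u j ^ 2) :=
                pow_le_pow_left₀ (norm_nonneg _) (hout w hw) _
            _ = (2 : ℝ) ^ ((u j ^ 2 : ℕ) : ℝ) := by rw [Real.rpow_natCast]
            _ ≤ 2 ^ e := Real.rpow_le_rpow_of_exponent_le one_le_two (he j (Finset.mem_range.1 hj))
      _ = (∑ j ∈ Finset.range k, cf j) * 2 ^ e := by rw [Finset.sum_mul]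
      _ ≤ S * 2 ^ e := by
          apply mul_le_mul_of_nonneg_right _ (by positivity)
          exact cf_summable0.sum_le_tsum _ (fun j _ => (cf_pos j).le)
  have hGall : ∀ k, ∀ w ∈ D, ‖G k w‖ ≤ (M + 2 * S) * 2 ^ ((u k : ℝ) ^ 2) := by
    intro k w hw
    have h1 := hTsum (k + 1) ((u k : ℝ) ^ 2) w (hDn w hw) (by
      intro j hj
      have : u j ≤ u k := u_strictMono.monotone (by omega)
      have h2 : (u j : ℝ) ≤ u k := by exact_mod_cast this
      push_cast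
      gcongr)
    have h2 := hgb w hw
    have h3 : (1 : ℝ) ≤ 2 ^ ((u k : ℝ) ^ 2) := Real.one_le_rpow one_le_two (by positivity)
    calc ‖G k w‖ ≤ ‖g w‖ + ‖∑ j ∈ Finset.range (k + 1), T ξ j (a + w • b)‖ := norm_sub_le _ _
      _ ≤ (M + S) + S * 2 ^ ((u k : ℝ) ^ 2) := add_le_add h2 h1
      _ ≤ (M + 2 * S) * 2 ^ ((u k : ℝ) ^ 2) := by nlinarith
  -- three circles
  set r3 : ℝ := 1 / 2 + κ / 2 with hr3
  set t : ℝ := Real.log ((1 / 2 + κ / 4) / (1 / 4)) / Real.log (r3 / (1 / 4)) with ht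
  have hlog1 : 0 < Real.log ((1 / 2 + κ / 4) / (1 / 4)) := Real.log_pos (by
    rw [lt_div_iff₀ (by norm_num)]; linarith)
  have hlog2 : Real.log ((1 / 2 + κ / 4) / (1 / 4)) < Real.log (r3 / (1 / 4)) := by
    apply Real.log_lt_log (by positivity)
    apply div_lt_div_of_pos_right _ (by norm_num)
    rw [hr3]; linarith
  have ht0 : 0 ≤ t := by rw [ht]; exact div_nonneg hlog1.le (hlog1.trans hlog2).le
  have ht1 : t < 1 := by rw [ht, div_lt_one (hlog1.trans hlog2)]; exact hlog2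
  have hrt : (1 / 4 : ℝ) * (r3 / (1 / 4)) ^ t = 1 / 2 + κ / 4 := by
    have hp : 0 < r3 / (1 / 4) := by positivity
    rw [Real.rpow_def_of_pos hp, ht, mul_div_cancel₀ _ (hlog1.trans hlog2).ne',
      Real.exp_log (by positivity)]
    ring
  set z : ℂ := τ * ((1 + κ / 4 : ℝ) : ℂ) with hz
  have hzn : ‖z‖ = 1 + κ / 4 := by
    rw [hz, norm_mul, hτ, one_mul, Complex.norm_real, Real.norm_of_nonneg (by positivity)]
  have hzp : ‖z - τ / 2‖ = 1 / 2 + κ / 4 := by
    have : z - τ / 2 = τ * ((1 / 2 + κ / 4 : ℝ) : ℂ) := by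
      rw [hz]; push_cast; ring
    rw [this, norm_mul, hτ, one_mul, Complex.norm_real, Real.norm_of_nonneg (by positivity)]
  have hzD : z ∈ D := by
    rw [hD, mem_ball_iff_norm, hzp]; linarith
  have hGz : ∀ k, ‖G k z‖ ≤ (2 * Real.exp (-(u (k + 1) : ℝ))) ^ (1 - t) *
      ((M + 2 * S) * 2 ^ ((u k : ℝ) ^ 2)) ^ t := by
    intro k
    refine three_circles (p := τ / 2) (r1 := 1 / 4) (r3 := r3) (R := 1 / 2 + κ) (by norm_num)
      (by rw [hr3]; linarith) (by rw [hr3]; linarith) (hGd k) ?_ ?_ ht0 ht1.le ?_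
    · intro w hw
      apply hGin
      have := norm_le_norm_add_norm_sub' w (τ / 2)
      rw [hτ2, hw] at this
      linarith
    · intro w hw
      apply hGall
      rw [hD, mem_ball_iff_norm, hw, hr3]; linarith
    · rw [hzp, hrt]
  -- the point of the sphere
  set η : ℝ := κ / 8 * ‖b‖ ^ 2 with hη
  have hη0 : 0 < η := by rw [hη]; positivity
  obtain ⟨x0, hx0⟩ := (asym ht0 ht1 (show 0 < M + 2 * S by positivity) hη0 hM0 hS0.le).exists_forall_of_atTop
  obtain ⟨N, hN⟩ := exists_nat_ge x0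
  obtain ⟨k, hkN, hk⟩ := hrec (a + τ • b) (hab τ hτ) (η / 2) (by positivity) N
  have hux : x0 ≤ (u k : ℝ) := by
    have h1 : (k : ℝ) + 1 ≤ u k := by exact_mod_cast u_ge k
    have h2 : (N : ℝ) ≤ k := by exact_mod_cast hkN
    linarith
  have hfin := hx0 _ hux
  have hinz : (1 + 2 * η : ℝ) ≤ ‖(inner ℂ (a + τ • b) (a + z • b) : ℂ)‖ := by
    have e1 : (inner ℂ (a + τ • b) (a + z • b) : ℂ) = ((1 + 2 * η : ℝ) : ℂ) := by
      have hba : (inner ℂ b a : ℂ) = 0 := by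
        rw [← inner_conj_symm, hinner, map_zero]
      rw [inner_add_left, inner_add_right, inner_add_right, inner_smul_left, inner_smul_left,
        inner_smul_right, inner_smul_right, hinner, hba, inner_self_eq_norm_sq_to_K,
        inner_self_eq_norm_sq_to_K]
      simp only [mul_zero, add_zero, zero_add]
      have e2 : (starRingEnd ℂ) τ * τ = 1 := by
        rw [mul_comm, Complex.mul_conj, Complex.normSq_eq_norm_sq, hτ]; simp
      have e3 : (starRingEnd ℂ) τ * (z * ((‖b‖ : ℂ) ^ 2)) = ((1 + κ / 4 : ℝ) : ℂ) * (‖b‖ : ℂ) ^ 2 := by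
        rw [hz]
        linear_combination (((1 + κ / 4 : ℝ) : ℂ) * (‖b‖ : ℂ) ^ 2) * e2
      have e4 : ((‖a‖ : ℝ) : ℂ) ^ 2 + ((‖b‖ : ℝ) : ℂ) ^ 2 = 1 := by exact_mod_cast hsum
      have e5 : (((‖a‖ : ℝ) : ℂ)) ^ 2 + (starRingEnd ℂ) τ * (z * ((‖b‖ : ℂ) ^ 2)) =
          ((1 + 2 * η : ℝ) : ℂ) := by
        rw [e3, hη]
        push_cast
        linear_combination e4
      exact e5
    rw [e1, Complex.norm_real, Real.norm_of_nonneg (by positivity)]
  have hlow : 1 + η ≤ ‖ell (ξ k) (a + z • b)‖ := by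
    rw [ell_apply]
    have e1 : (inner ℂ (ξ k) (a + z • b) : ℂ) =
        inner ℂ (a + τ • b) (a + z • b) + inner ℂ (ξ k - (a + τ • b)) (a + z • b) := by
      rw [← inner_add_left]; congr 1; abel
    have e2 : ‖(inner ℂ (ξ k - (a + τ • b)) (a + z • b) : ℂ)‖ ≤ η / 2 * 2 :=
      (norm_inner_le_norm _ _).trans (mul_le_mul hk.le (hout z (hDn z hzD)) (norm_nonneg _)
        (by positivity))
    have e3 := norm_sub_norm_le (inner ℂ (a + τ • b) (a + z • b) : ℂ)
      (-(inner ℂ (ξ k - (a + τ • b)) (a + z • b) : ℂ))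
    rw [norm_neg, sub_neg_eq_add, ← e1] at e3
    linarith
  have hTlow : Real.exp (-(u k : ℝ)) * (1 + η) ^ ((u k : ℝ) ^ 2) ≤ ‖T ξ k (a + z • b)‖ := by
    unfold T
    rw [norm_mul, norm_pow, Complex.norm_real, Real.norm_of_nonneg (cf_pos k).le]
    apply mul_le_mul_of_nonneg_left _ (cf_pos k).le
    have : (1 + η) ^ ((u k : ℝ) ^ 2) = (1 + η) ^ (u k ^ 2) := by
      rw [show ((u k : ℝ) ^ 2) = ((u k ^ 2 : ℕ) : ℝ) by push_cast; rfl, Real.rpow_natCast]
    rw [this]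
    exact pow_le_pow_left₀ (by positivity) hlow _
  have hTup : ‖T ξ k (a + z • b)‖ ≤ (2 * Real.exp (-((u k : ℝ) ^ 3))) ^ (1 - t) *
      ((M + 2 * S) * 2 ^ ((u k : ℝ) ^ 2)) ^ t + M + S * 2 ^ (u k : ℝ) := by
    have e1 : T ξ k (a + z • b) = -G k z + g z - ∑ j ∈ Finset.range k, T ξ j (a + z • b) := by
      simp only [hG]
      rw [Finset.sum_range_succ]
      ring
    have e2 : ‖g z‖ ≤ M := by
      have h1 : z ∈ ball τ δ := hDout z hzD (by rw [hzn]; linarith)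
      rw [hg2 z h1]
      exact hM z (ball_subset_closedBall h1)
    have e3 := hTsum k (u k : ℝ) z (hDn z hzD) (by
      intro j hj
      have h1 : u (j + 1) ≤ u k := u_strictMono.monotone (by omega)
      rw [u_succ] at h1
      have h2 : u j ^ 2 ≤ u j ^ 3 := Nat.pow_le_pow_right (by have := u_two j; omega) (by norm_num)
      exact_mod_cast h2.trans h1)
    have e4 := hGz k
    rw [u_succ] at e4
    push_cast at e4
    rw [e1]
    calc ‖-G k z + g z - ∑ j ∈ Finset.range k, T ξ j (a + z • b)‖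
        ≤ ‖-G k z + g z‖ + ‖∑ j ∈ Finset.range k, T ξ j (a + z • b)‖ := norm_sub_le _ _
      _ ≤ (‖G k z‖ + ‖g z‖) + ‖∑ j ∈ Finset.range k, T ξ j (a + z • b)‖ := by
          gcongr
          calc ‖-G k z + g z‖ ≤ ‖-G k z‖ + ‖g z‖ := norm_add_le _ _
            _ = _ := by rw [norm_neg]
      _ ≤ _ := add_le_add (add_le_add e4 e2) e3
  linarith

end Pool.Agent.R230.NB
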